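import Pool.Agent.Work.MP_ef7f46_tn_helper89.Common

set_option autoImplicit false
open Classical Finset

noncomputable section

namespace TN

namespace TYM

/-- twice the number of pairs of points of the batch on a line -/
theorem twice {Q Λ : Type} [Fintype Q] [Fintype Λ] (X : Ctx Q Λ) (β : Fin X.b → Q) (ℓ : Λ) :
    2 * ((pc X β ℓ).choose 2 : ℝ) =
      ∑ pr ∈ (univ : Finset (Fin X.b)).offDiag,
        if β pr.1 ∈ X.inc ℓ ∧ β pr.2 ∈ X.inc ℓ then (1 : ℝ) else 0 := by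
  unfold pc
  rw [Finset.sum_ite, Finset.sum_const_zero, add_zero, Finset.sum_const, nsmul_eq_mul, mul_one]
  have h1 : ((univ : Finset (Fin X.b)).offDiag.filter
      (fun pr => β pr.1 ∈ X.inc ℓ ∧ β pr.2 ∈ X.inc ℓ)) =
      (univ.filter (fun j => β j ∈ X.inc ℓ)).offDiag := by
    ext pr
    simp only [mem_filter, mem_offDiag, mem_univ, true_and]
    tauto
  rw [h1, Finset.offDiag_card]
  generalize (univ.filter (fun j => β j ∈ X.inc ℓ)).card = c
  have h2 : c * c - c = c * (c - 1) := by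
    rw [Nat.mul_sub, mul_one]
  rw [h2, Nat.choose_two_right]
  have h3 : 2 ∣ c * (c - 1) := (Nat.even_mul_pred_self c).two_dvd
  have h4 : 2 * (c * (c - 1) / 2) = c * (c - 1) := Nat.mul_div_cancel' h3
  exact_mod_cast h4

end TYM

theorem tym_ok (h1 : Stmt_LCARD) : Stmt_TYM := by
  intro Q Λ _ _ X hX
  have hq := H89.qqpos X hX
  have hcQ := H89.cardQ X hX
  have hcP := H89.cardP X hX
  have hL : (Fintype.card Λ : ℝ) ≤ qq X := (h1 Q Λ X.inc X.N X.M hX.lin).1
  have hN : (0 : ℝ) < X.N := by exact_mod_cast hX.lin.Npos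
  have hM : (0 : ℝ) < X.M := by exact_mod_cast hX.lin.Mpos
  have hm : (0 : ℝ) < X.m := by exact_mod_cast hX.mpos
  have hlam : (0 : ℝ) < X.lam := by exact_mod_cast hX.lampos
  have hmb : (X.m : ℝ) * X.b = X.lam * X.M := by exact_mod_cast hX.mb
  have hline := hX.lin.line
  have ht : 0 < 5 * (X.lam : ℝ) ^ 2 / X.m * qq X := by positivity
  refine H89.markov (fun z : Pos X → Q =>
    ∑ i : Fin X.m, ∑ ℓ, ((pc X (fun j => z (i, j)) ℓ).choose 2 : ℝ)) _
    (qq X ^ (X.lam * X.M)) (fun z => Finset.sum_nonneg (fun i _ =>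
      Finset.sum_nonneg (fun ℓ _ => Nat.cast_nonneg _))) ht ?_
  have hcard : (0 : ℝ) < (Fintype.card Q : ℝ) := by rw [hcQ]; exact hq
  have hpow : 0 < qq X ^ (X.lam * X.M) := by positivity
  have e1 : ∀ (i : Fin X.m) (ℓ : Λ), ∑ z : Pos X → Q,
      ((pc X (fun j => z (i, j)) ℓ).choose 2 : ℝ) ≤
      1 / 2 * ((X.b : ℝ) ^ 2 * (qq X ^ (X.lam * X.M) * (1 / X.M * (1 / X.M)))) := by
    intro i ℓ
    have e2 : 2 * ∑ z : Pos X → Q, ((pc X (fun j => z (i, j)) ℓ).choose 2 : ℝ) =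
        ∑ pr ∈ (univ : Finset (Fin X.b)).offDiag, ∑ z : Pos X → Q,
          if z (i, pr.1) ∈ X.inc ℓ ∧ z (i, pr.2) ∈ X.inc ℓ then (1 : ℝ) else 0 := by
      rw [Finset.mul_sum, Finset.sum_comm]
      exact Finset.sum_congr rfl (fun z _ => TYM.twice X (fun j => z (i, j)) ℓ)
    have e3 : ∀ pr ∈ (univ : Finset (Fin X.b)).offDiag, ∑ z : Pos X → Q,
          (if z (i, pr.1) ∈ X.inc ℓ ∧ z (i, pr.2) ∈ X.inc ℓ then (1 : ℝ) else 0) =
          qq X ^ (X.lam * X.M) * (1 / X.M * (1 / X.M)) := by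
      intro pr hpr
      have hne : pr.1 ≠ pr.2 := (Finset.mem_offDiag.1 hpr).2.2
      have hne' : ((i, pr.1) : Pos X) ≠ (i, pr.2) := fun h => hne (congrArg Prod.snd h)
      rw [← H89.card_ind, H89.two_count hcard (i, pr.1) (i, pr.2) hne', hcQ, hcP, hline ℓ]
      have : (X.N : ℝ) / qq X = 1 / X.M := by
        unfold qq
        field_simp
      rw [this]
    rw [Finset.sum_congr rfl e3, Finset.sum_const, nsmul_eq_mul] at e2
    have hoff : (((univ : Finset (Fin X.b)).offDiag.card : ℕ) : ℝ) ≤ (X.b : ℝ) ^ 2 := by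
      rw [Finset.offDiag_card, Finset.card_univ, Fintype.card_fin]
      have : X.b * X.b - X.b ≤ X.b ^ 2 := by
        rw [sq]; exact Nat.sub_le _ _
      exact_mod_cast this
    have e8 := mul_le_mul_of_nonneg_right hoff
      (show (0 : ℝ) ≤ qq X ^ (X.lam * X.M) * (1 / X.M * (1 / X.M)) by positivity)
    linarith
  rw [Finset.sum_comm]
  have e4 : ∀ i : Fin X.m, ∑ z : Pos X → Q, ∑ ℓ, ((pc X (fun j => z (i, j)) ℓ).choose 2 : ℝ) ≤
      qq X * (1 / 2 * ((X.b : ℝ) ^ 2 * (qq X ^ (X.lam * X.M) * (1 / X.M * (1 / X.M))))) := by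
    intro i
    rw [Finset.sum_comm]
    refine le_trans (Finset.sum_le_sum (fun ℓ _ => e1 i ℓ)) ?_
    rw [Finset.sum_const, nsmul_eq_mul, Finset.card_univ]
    exact mul_le_mul_of_nonneg_right hL (by positivity)
  refine le_trans (Finset.sum_le_sum (fun i _ => e4 i)) ?_
  rw [Finset.sum_const, nsmul_eq_mul, Finset.card_univ, Fintype.card_fin]
  have hb : (X.b : ℝ) = X.lam * X.M / X.m := by
    field_simp
    linarith
  apply le_of_eq
  rw [hb]
  field_simp
  ring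

end TN
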