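import Pool.Agent.Work.MP_ef7f46_tn.Interface

set_option autoImplicit false
open Classical Finset

noncomputable section

namespace TN.H89

/-- number of functions with prescribed ranges at two positions -/
theorem two_count {P Q : Type} [DecidableEq P] [Fintype P] [Fintype Q] (hQ : (0 : ℝ) < (Fintype.card Q : ℝ))
    (p p' : P) (hp : p ≠ p') (A B : Finset Q)
    (inst : DecidablePred (fun z : P → Q => z p ∈ A ∧ z p' ∈ B)) :
    ((@Finset.filter _ (fun z : P → Q => z p ∈ A ∧ z p' ∈ B) inst univ).card : ℝ) =
      (Fintype.card Q : ℝ) ^ (Fintype.card P) *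
        (((A.card : ℝ) / (Fintype.card Q : ℝ)) * ((B.card : ℝ) / (Fintype.card Q : ℝ))) := by
  have h1 : (@Finset.filter _ (fun z : P → Q => z p ∈ A ∧ z p' ∈ B) inst univ) =
      Fintype.piFinset (fun q : P => if q = p then A else if q = p' then B else univ) := by
    ext z
    simp only [mem_filter, mem_univ, true_and, Fintype.mem_piFinset]
    constructor
    · rintro ⟨h1, h2⟩ q
      by_cases hq : q = p
      · subst hq; simpa using h1
      · by_cases hq' : q = p'
        · subst hq'; simp [hq, h2]
        · simp [hq, hq']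
    · intro h
      have e1 := h p
      have e2 := h p'
      have hne : p' ≠ p := fun h => hp h.symm
      simp only [if_true] at e1
      rw [if_neg hne, if_pos rfl] at e2
      exact ⟨e1, e2⟩
  rw [h1, Fintype.card_piFinset, Nat.cast_prod]
  have h2 : ∀ q : P, (((if q = p then A else if q = p' then B else univ : Finset Q).card : ℕ) : ℝ)
      = (Fintype.card Q : ℝ) * ((if q = p then ((A.card : ℝ) / (Fintype.card Q : ℝ)) else 1) *
        (if q = p' then ((B.card : ℝ) / (Fintype.card Q : ℝ)) else 1)) := by
    intro q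
    by_cases hq : q = p
    · subst hq
      rw [if_pos rfl, if_pos rfl, if_neg hp]
      field_simp
    · rw [if_neg hq, if_neg hq]
      by_cases hq' : q = p'
      · rw [if_pos hq', if_pos hq']
        field_simp
      · rw [if_neg hq', if_neg hq']
        simp
  rw [Finset.prod_congr rfl (fun q _ => h2 q), Finset.prod_mul_distrib, Finset.prod_mul_distrib,
    Finset.prod_const, Finset.prod_ite_eq', Finset.prod_ite_eq']
  simp

/-- Markov inequality, counting form -/
theorem markov {A : Type} [Fintype A] (f : A → ℝ) (t K : ℝ) (hf : ∀ z, 0 ≤ f z) (ht : 0 < t)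
    (hs : ∑ z, f z ≤ t / 10 * K) :
    ((univ.filter (fun z => ¬ f z ≤ t)).card : ℝ) ≤ 1 / 10 * K := by
  have h1 : ((univ.filter (fun z => ¬ f z ≤ t)).card : ℝ) * t ≤ ∑ z, f z := by
    have h2 : ((univ.filter (fun z => ¬ f z ≤ t)).card : ℝ) * t
        = ∑ z ∈ univ.filter (fun z => ¬ f z ≤ t), t := by
      rw [Finset.sum_const, nsmul_eq_mul]
    rw [h2]
    refine le_trans (Finset.sum_le_sum (fun z hz => ?_))
      (Finset.sum_le_sum_of_subset_of_nonneg (Finset.filter_subset _ _) (fun z _ _ => hf z))
    have := (mem_filter.1 hz).2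
    exact (not_le.1 this).le
  have h3 : ((univ.filter (fun z => ¬ f z ≤ t)).card : ℝ) * t ≤ (1 / 10 * K) * t := by
    linarith
  exact le_of_mul_le_mul_right h3 ht

theorem cardQ {Q Λ : Type} [Fintype Q] [Fintype Λ] (X : Ctx Q Λ) (hX : Reg X) :
    (Fintype.card Q : ℝ) = qq X := by
  have := hX.lin.cardQ
  unfold qq
  rw [this]
  push_cast
  ring

theorem cardP {Q Λ : Type} [Fintype Q] [Fintype Λ] (X : Ctx Q Λ) (hX : Reg X) :
    Fintype.card (Pos X) = X.lam * X.M := by
  have := hX.mb
  simp only [Pos, Fintype.card_prod, Fintype.card_fin]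
  exact this

theorem qqpos {Q Λ : Type} [Fintype Q] [Fintype Λ] (X : Ctx Q Λ) (hX : Reg X) : 0 < qq X := by
  have h1 := hX.lin.Npos
  have h2 := hX.lin.Mpos
  unfold qq
  positivity

/-- card of a filter as a sum of indicators -/
theorem card_ind {A : Type} [Fintype A] (s : A → Prop) [DecidablePred s] :
    ((univ.filter s).card : ℝ) = ∑ z, if s z then (1 : ℝ) else 0 := by
  rw [Finset.card_filter]
  push_cast
  rfl

end TN.H89
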