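import Pool.Agent.Work.MP_ef7f46_tn_helper89.Common

set_option autoImplicit false
open Classical Finset

noncomputable section

namespace TN

namespace TYL

/-- the lines through repeated points are counted twice by ordered pairs -/
theorem twice {Q Λ : Type} [Fintype Q] [Fintype Λ] (X : Ctx Q Λ) (z : Pos X → Q) :
    2 * ((univ.filter (fun ℓ => ∃ p p', p ≠ p' ∧ z p = z p' ∧ z p ∈ X.inc ℓ)).card : ℝ) ≤
      ∑ pr ∈ (univ : Finset (Pos X)).offDiag, ∑ ℓ, ∑ y ∈ X.inc ℓ,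
        if z pr.1 ∈ ({y} : Finset Q) ∧ z pr.2 ∈ ({y} : Finset Q) then (1 : ℝ) else 0 := by
  rw [Finset.sum_comm]
  rw [H89.card_ind, Finset.mul_sum]
  refine Finset.sum_le_sum (fun ℓ _ => ?_)
  by_cases h : ∃ p p', p ≠ p' ∧ z p = z p' ∧ z p ∈ X.inc ℓ
  · rw [if_pos h]
    obtain ⟨p, p', hp, he, hl⟩ := h
    have hsub : ({(p, p'), (p', p)} : Finset (Pos X × Pos X)) ⊆ (univ : Finset (Pos X)).offDiag := by
      intro q hq
      simp only [mem_insert, mem_singleton] at hq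
      rw [Finset.mem_offDiag]
      rcases hq with rfl | rfl
      · exact ⟨mem_univ _, mem_univ _, hp⟩
      · exact ⟨mem_univ _, mem_univ _, fun h => hp h.symm⟩
    refine le_trans ?_ (Finset.sum_le_sum_of_subset_of_nonneg hsub (fun q _ _ =>
      Finset.sum_nonneg (fun y _ => by split_ifs <;> norm_num)))
    have hne : (p, p') ≠ (p', p) := by
      intro h
      exact hp (congrArg Prod.fst h)
    rw [Finset.sum_pair hne]
    have key : ∀ a b : Pos X, z a = z p → z b = z p → (1 : ℝ) ≤ ∑ y ∈ X.inc ℓ,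
        if z a ∈ ({y} : Finset Q) ∧ z b ∈ ({y} : Finset Q) then (1 : ℝ) else 0 := by
      intro a b ha hb
      have h1 := Finset.single_le_sum (s := X.inc ℓ) (a := z p)
        (f := fun y => if z a ∈ ({y} : Finset Q) ∧ z b ∈ ({y} : Finset Q) then (1 : ℝ) else 0)
        (fun y _ => by
          show (0 : ℝ) ≤ if z a ∈ ({y} : Finset Q) ∧ z b ∈ ({y} : Finset Q) then (1 : ℝ) else 0
          split_ifs <;> norm_num) hl
      refine le_trans ?_ h1
      show (1 : ℝ) ≤ if z a ∈ ({z p} : Finset Q) ∧ z b ∈ ({z p} : Finset Q) then (1 : ℝ) else 0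
      rw [if_pos ⟨by simp [ha], by simp [hb]⟩]
    have k1 := key p p' rfl he.symm
    have k2 := key p' p he.symm rfl
    linarith
  · rw [if_neg h]
    simp only [mul_zero]
    exact Finset.sum_nonneg (fun q _ => Finset.sum_nonneg (fun y _ => by split_ifs <;> norm_num))

end TYL

theorem tyl_ok (h1 : Stmt_LCARD) : Stmt_TYL := by
  intro Q Λ _ _ X hX
  have hq := H89.qqpos X hX
  have hcQ := H89.cardQ X hX
  have hcP := H89.cardP X hX
  have hL : (Fintype.card Λ : ℝ) ≤ qq X := (h1 Q Λ X.inc X.N X.M hX.lin).1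
  have hN : (0 : ℝ) < X.N := by exact_mod_cast hX.lin.Npos
  have hM : (0 : ℝ) < X.M := by exact_mod_cast hX.lin.Mpos
  have hlam : (0 : ℝ) < X.lam := by exact_mod_cast hX.lampos
  have hline := hX.lin.line
  have ht : 0 < 5 * (X.lam : ℝ) ^ 2 / X.N * qq X := by positivity
  refine H89.markov (fun z : Pos X → Q =>
    ((univ.filter (fun ℓ => ∃ p p', p ≠ p' ∧ z p = z p' ∧ z p ∈ X.inc ℓ)).card : ℝ)) _
    (qq X ^ (X.lam * X.M)) (fun z => Nat.cast_nonneg _) ht ?_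
  have hcard : (0 : ℝ) < (Fintype.card Q : ℝ) := by rw [hcQ]; exact hq
  have e2 : ∑ z : Pos X → Q, 2 *
      ((univ.filter (fun ℓ => ∃ p p', p ≠ p' ∧ z p = z p' ∧ z p ∈ X.inc ℓ)).card : ℝ) ≤
      ∑ z : Pos X → Q, ∑ pr ∈ (univ : Finset (Pos X)).offDiag, ∑ ℓ, ∑ y ∈ X.inc ℓ,
        if z pr.1 ∈ ({y} : Finset Q) ∧ z pr.2 ∈ ({y} : Finset Q) then (1 : ℝ) else 0 :=
    Finset.sum_le_sum (fun z _ => TYL.twice X z)
  rw [← Finset.mul_sum, Finset.sum_comm] at e2
  have e3 : ∀ pr ∈ (univ : Finset (Pos X)).offDiag, ∑ z : Pos X → Q, ∑ ℓ, ∑ y ∈ X.inc ℓ,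
        (if z pr.1 ∈ ({y} : Finset Q) ∧ z pr.2 ∈ ({y} : Finset Q) then (1 : ℝ) else 0) ≤
      qq X ^ (X.lam * X.M) * (1 / X.M) := by
    intro pr hpr
    have hne : pr.1 ≠ pr.2 := (Finset.mem_offDiag.1 hpr).2.2
    rw [Finset.sum_comm]
    have e4 : ∀ ℓ : Λ, ∑ z : Pos X → Q, ∑ y ∈ X.inc ℓ,
        (if z pr.1 ∈ ({y} : Finset Q) ∧ z pr.2 ∈ ({y} : Finset Q) then (1 : ℝ) else 0) =
        X.N * (qq X ^ (X.lam * X.M) * (1 / qq X * (1 / qq X))) := by
      intro ℓ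
      rw [Finset.sum_comm]
      have e5 : ∀ y ∈ X.inc ℓ, ∑ z : Pos X → Q,
          (if z pr.1 ∈ ({y} : Finset Q) ∧ z pr.2 ∈ ({y} : Finset Q) then (1 : ℝ) else 0) =
          qq X ^ (X.lam * X.M) * (1 / qq X * (1 / qq X)) := by
        intro y _
        rw [← H89.card_ind, H89.two_count hcard pr.1 pr.2 hne, hcQ, hcP]
        simp
      rw [Finset.sum_congr rfl e5, Finset.sum_const, hline ℓ, nsmul_eq_mul]
    rw [Finset.sum_congr rfl (fun ℓ _ => e4 ℓ), Finset.sum_const, nsmul_eq_mul, Finset.card_univ]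
    have hpow : 0 < qq X ^ (X.lam * X.M) := by positivity
    have hMq : (1 : ℝ) / X.M = X.N / qq X := by
      unfold qq
      field_simp
    rw [hMq]
    have e6 : qq X ^ (X.lam * X.M) * (X.N / qq X) =
        qq X * (X.N * (qq X ^ (X.lam * X.M) * (1 / qq X * (1 / qq X)))) := by
      field_simp
    rw [e6]
    exact mul_le_mul_of_nonneg_right hL (by positivity)
  have e7 := le_trans e2 (Finset.sum_le_sum e3)
  rw [Finset.sum_const, nsmul_eq_mul] at e7
  have hoff : (((univ : Finset (Pos X)).offDiag.card : ℕ) : ℝ) ≤ ((X.lam : ℝ) * X.M) ^ 2 := by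
    rw [Finset.offDiag_card, Finset.card_univ, hcP]
    have : X.lam * X.M * (X.lam * X.M) - X.lam * X.M ≤ (X.lam * X.M) ^ 2 := by
      rw [sq]; exact Nat.sub_le _ _
    calc ((X.lam * X.M * (X.lam * X.M) - X.lam * X.M : ℕ) : ℝ) ≤ (((X.lam * X.M) ^ 2 : ℕ) : ℝ) := by
          exact_mod_cast this
      _ = ((X.lam : ℝ) * X.M) ^ 2 := by push_cast; ring
  have hpow : 0 < qq X ^ (X.lam * X.M) := by positivity
  have e8 : (((univ : Finset (Pos X)).offDiag.card : ℕ) : ℝ) *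
      (qq X ^ (X.lam * X.M) * (1 / X.M)) ≤
      ((X.lam : ℝ) * X.M) ^ 2 * (qq X ^ (X.lam * X.M) * (1 / X.M)) :=
    mul_le_mul_of_nonneg_right hoff (by positivity)
  have e9 : ((X.lam : ℝ) * X.M) ^ 2 * (qq X ^ (X.lam * X.M) * (1 / X.M)) =
      2 * (5 * (X.lam : ℝ) ^ 2 / X.N * qq X / 10 * qq X ^ (X.lam * X.M)) := by
    unfold qq
    field_simp
    ring
  linarith

end TN
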